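import Mathlib
import Pool.Agent.Y210.EF.Win
import Pool.Agent.Y939.WN.Large

set_option autoImplicit false

/-!
# The Harbourne-Hirschowitz conjecture for every vector: explicit open sets, points, all fields

Let `w` be ANY vector of `n` multiplicities, `w i ≤ μ`, `c = ∑ (w i + 1).choose 2`,
`R = ⌈(25000 (μ + 1) ^ 2 - ∑ w i) / 4⌉` (zero if `∑ w i ≥ 25000 (μ + 1) ^ 2`).

1. There is ONE polynomial `Φ ≠ 0` with INTEGRAL coefficients in the `2 n` affine coordinates of `n`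
   points, of total degree at most `2 c √(2 (c + R))` and height at most
   `(c!) ^ 2 * 4 ^ (c √(2 (c + R)))`, such that for EVERY field `L`, of any characteristic, all `n`
   points `Y` over `L` with `Φ(Y) ≠ 0` and ALL degrees `d` with
   `25000 (μ + 1) ^ 2 ≤ ∑ w i + 4 |χ (d; w)|` the linear system has the expected dimension
   `h⁰ = max (0, χ)`; in particular for all `d` with `|χ (d; w)| ≥ 6250 (μ + 1) ^ 2`.
2. For every single class `(d; w)` which is large (`Pool.Agent.Y939.WN.Large`) or carried by finitely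
   many reflections to a standard large class there is such a polynomial of degree at most `r d` and
   height at most `r! 2 ^ (r d)`, `r = min ((d + 2).choose 2) c`.
   In both cases `Φ ≠ 0` over every field of characteristic zero or larger than the bound `H` for the
   height, with counts of the exceptional configurations, and `Φ ≠ 0` at the explicit points
   `(T ^ E ^ (2 i) : T ^ E ^ (2 i + 1) : 1)`, `E > B`, `T > H` (`Controls`).
3. At the points with the real coordinates `exp (2 ^ (k / 2 n))`, `k < 2 n`, ALL classes of part 2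
   have `h⁰ = max (0, χ)`.
-/

namespace Pool.Agent.Results.MP_6b2d39_ag.ExplicitWindows

open MvPolynomial Pool.Agent.Y939.WN

section defs
variable {L : Type} [Field L]

/-- `H⁰(D)` for `D = d H - ∑ w i E i`: the forms of degree `d` which vanish to order at least `w i` at
the points `(Y i 0 : Y i 1 : 1)`. -/
noncomputable def sections {n : ℕ} (Y : Fin n → Fin 2 → L) (d : ℕ) (w : Fin n → ℕ) :
    Submodule L (MvPolynomial (Fin 3) L) :=
  homogeneousSubmodule (Fin 3) L d ⊓ Submodule.restrictScalars L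
    (⨅ i : Fin n, Ideal.span
      ({X 0 - C (Y i 0) * X 2, X 1 - C (Y i 1) * X 2} : Set (MvPolynomial (Fin 3) L)) ^ (w i))

/-- `h⁰(D)` -/
noncomputable def hZero {n : ℕ} (Y : Fin n → Fin 2 → L) (d : ℕ) (w : Fin n → ℕ) : ℤ :=
  (Module.finrank L ↥(sections Y d w) : ℤ)

/-- The value at `Y` of a polynomial with integral coefficients in the coordinates of `n` points. -/
noncomputable def value {n : ℕ} (Φ : MvPolynomial (Fin n × Fin 2) ℤ) (Y : Fin n → Fin 2 → L) : L :=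
  eval (fun ij : Fin n × Fin 2 => Y ij.1 ij.2) (Φ.map (Int.castRingHom L))

end defs

/-- The Euler characteristic. -/
def chi {n : ℕ} (d : ℕ) (w : Fin n → ℕ) : ℤ :=
  ((d + 2).choose 2 : ℤ) - ∑ i, ((w i + 1).choose 2 : ℤ)

/-- The sum of the absolute values of the coefficients. -/
noncomputable def height {n : ℕ} (Φ : MvPolynomial (Fin n × Fin 2) ℤ) : ℕ :=
  ∑ s ∈ Φ.support, (Φ.coeff s).natAbs

/-- The number `c = ∑ w i (w i + 1) / 2` of the conditions. -/
def conds {n : ℕ} (w : Fin n → ℕ) : ℕ := ∑ i, (w i + 1).choose 2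

/-- `Φ ≠ 0` has degree at most `B` and height at most `H`. Over every field of characteristic zero or
larger than `H` it is not zero, at most `B |S| ^ (2 n - 1)` of the configurations with coordinates in a
finite set `S` are zeros of `Φ`, and in characteristic zero the points
`(T ^ E ^ (2 i) : T ^ E ^ (2 i + 1) : 1)`, `E > B`, `T > H`, are not. -/
def Controls {n : ℕ} (Φ : MvPolynomial (Fin n × Fin 2) ℤ) (B H : ℕ) : Prop :=
  Φ ≠ 0 ∧ Φ.totalDegree ≤ B ∧ height Φ ≤ H ∧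
    (∀ (L : Type) [Field L], (CharZero L ∨ ∃ p : ℕ, CharP L p ∧ H < p) →
      Φ.map (Int.castRingHom L) ≠ 0 ∧
      ∀ S : Finset L, Set.ncard {Y : Fin n × Fin 2 → L | (∀ ij, Y ij ∈ S) ∧
        value Φ (fun i j => Y (i, j)) = 0} * S.card ≤ B * S.card ^ (2 * n)) ∧
    ∀ E T : ℕ, B < E → H < T → ∀ (L : Type) [Field L] [CharZero L],
      value Φ (fun (i : Fin n) (j : Fin 2) => (T : L) ^ E ^ (2 * (i : ℕ) + (j : ℕ))) ≠ 0

/-- The `n` points with the affine coordinates `exp (2 ^ (k / (2 n)))`, `k = 0, 1, …, 2 n - 1`. -/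
noncomputable def realPoints (n : ℕ) : Fin n → Fin 2 → ℝ := fun i j =>
  Real.exp ((2 : ℝ) ^ (((2 * (i : ℕ) + (j : ℕ) : ℕ) : ℝ) / (2 * n)))

/-- The class `(d; w)` is standard: `d ≥ w i + w j + w k`. -/
def Standard {n : ℕ} (d : ℕ) (w : Fin n → ℕ) : Prop :=
  ∀ i j k : Fin n, i ≠ j → i ≠ k → j ≠ k → w i + w j + w k ≤ d

/-- The reflection of the class `a = (d; w)`, `d H - ∑ w l E l`, in the class
`H - E (i 0) - E (i 1) - E (i 2)`: with `δ = d - w (i 0) - w (i 1) - w (i 2)`, the numbers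
`d`, `w (i 0)`, `w (i 1)`, `w (i 2)` are increased by `δ`. -/
def reflect {n : ℕ} (i : Fin 3 → Fin n) (a : ℤ × (Fin n → ℤ)) : ℤ × (Fin n → ℤ) :=
  (a.1 + (a.1 - a.2 (i 0) - a.2 (i 1) - a.2 (i 2)),
    fun l => a.2 l + if l = i 0 ∨ l = i 1 ∨ l = i 2 then a.1 - a.2 (i 0) - a.2 (i 1) - a.2 (i 2)
      else 0)

/-- Finitely many reflections carry `(d; w)` to `(d'; w')`. -/
def Carries {n : ℕ} (d : ℕ) (w : Fin n → ℕ) (d' : ℕ) (w' : Fin n → ℕ) : Prop :=
  Relation.ReflTransGen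
    (fun a b : ℤ × (Fin n → ℤ) => ∃ i : Fin 3 → Fin n, Function.Injective i ∧ b = reflect i a)
    ((d : ℤ), fun l => (w l : ℤ)) ((d' : ℤ), fun l => (w' l : ℤ))

/-- Classes which are large, or carried by finitely many reflections to a standard large class. -/
def Wide {n : ℕ} (d : ℕ) (w : Fin n → ℕ) : Prop :=
  Large d w ∨ (4 ≤ n ∧ ∃ (d' : ℕ) (w' : Fin n → ℕ), Carries d w d' w' ∧ Standard d' w' ∧
    Large d' w')

/-- The number `R = ⌈(25000 (μ + 1) ^ 2 - ∑ w i) / 4⌉`, or zero if the difference is negative. -/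
def radius {n : ℕ} (w : Fin n → ℕ) (μ : ℕ) : ℕ := (25000 * (μ + 1) ^ 2 - ∑ i, w i + 3) / 4

theorem hZero_of {L : Type} [Field L] {n : ℕ} {Y : Fin n → Fin 2 → L} {d : ℕ} {w : Fin n → ℕ}
    (h : Pool.Agent.Y210.EF.ED L w Y d) : hZero Y d w = max 0 (chi d w) := by
  have h1 : Module.finrank L ↥(sections Y d w) =
      Nat.choose (d + 2) 2 - ∑ i, Nat.choose (w i + 1) 2 := h
  have h2 : ∑ i, ((w i + 1).choose 2 : ℤ) = ((∑ i, Nat.choose (w i + 1) 2 : ℕ) : ℤ) := by
    push_cast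
    rfl
  unfold hZero chi
  rw [h1, h2]
  omega

theorem controls_of {n : ℕ} {Φ : MvPolynomial (Fin n × Fin 2) ℤ} {B H : ℕ} (h1 : Φ ≠ 0)
    (h2 : Φ.totalDegree ≤ B) (h3 : Pool.Agent.Y210.EF.l1 Φ ≤ H) : Controls Φ B H :=
  ⟨h1, h2, h3, fun L _ hL => Pool.Agent.Y210.EF.val_count h1 h2 h3 L hL,
    fun E T hE hT L _ _ => Pool.Agent.Y210.EF.val_kron h1 h2 h3 hE hT L⟩

/-- the window in terms of natural numbers -/
theorem window_iff {n : ℕ} (w : Fin n → ℕ) (μ d : ℕ) :
    25000 * ((μ : ℤ) + 1) ^ 2 ≤ ∑ i, (w i : ℤ) + 4 * |chi d w| ↔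
      ((d + 2).choose 2 + radius w μ ≤ Pool.Agent.Y210.EF.cnd w ∨
        Pool.Agent.Y210.EF.cnd w + radius w μ ≤ (d + 2).choose 2) := by
  obtain ⟨M, hM⟩ : ∃ M, M = 25000 * (μ + 1) ^ 2 := ⟨_, rfl⟩
  obtain ⟨T, hT⟩ : ∃ T, T = ∑ i, w i := ⟨_, rfl⟩
  obtain ⟨c, hc⟩ : ∃ c, c = Pool.Agent.Y210.EF.cnd w := ⟨_, rfl⟩
  obtain ⟨a, ha⟩ : ∃ a, a = (d + 2).choose 2 := ⟨_, rfl⟩
  have e1 : 25000 * ((μ : ℤ) + 1) ^ 2 = (M : ℤ) := by rw [hM]; push_cast; ring
  have e2 : ∑ i, (w i : ℤ) = (T : ℤ) := by rw [hT]; push_cast; rfl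
  have e3 : chi d w = (a : ℤ) - (c : ℤ) := by
    unfold chi
    rw [ha, hc]
    unfold Pool.Agent.Y210.EF.cnd
    push_cast
    rfl
  have e4 : radius w μ = (M - T + 3) / 4 := by
    unfold radius
    rw [hM, hT]
  rw [e1, e2, e3, e4, ← hc, ← ha]
  rcases abs_cases ((a : ℤ) - (c : ℤ)) with ⟨h, h'⟩ | ⟨h, h'⟩ <;> rw [h] <;> omega

/-- **Main result.** -/
theorem result (n : ℕ) (hn : 1 ≤ n) :
    -- every vector of multiplicities: all degrees outside of the window
    (∀ (w : Fin n → ℕ) (μ : ℕ), (∀ i, w i ≤ μ) →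
      ∃ Φ : MvPolynomial (Fin n × Fin 2) ℤ,
        Controls Φ (2 * conds w * Nat.sqrt (2 * (conds w + radius w μ)))
          ((conds w).factorial ^ 2 * 4 ^ (conds w * Nat.sqrt (2 * (conds w + radius w μ)))) ∧
        ∀ (L : Type) [Field L] (Y : Fin n → Fin 2 → L), value Φ Y ≠ 0 →
          ∀ d : ℕ, 25000 * ((μ : ℤ) + 1) ^ 2 ≤ ∑ i, (w i : ℤ) + 4 * |chi d w| →
            hZero Y d w = max 0 (chi d w)) ∧
    -- single classes
    (∀ (d : ℕ) (w : Fin n → ℕ), Wide d w →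
      (∃ Φ : MvPolynomial (Fin n × Fin 2) ℤ,
        Controls Φ (min ((d + 2).choose 2) (conds w) * d)
          ((min ((d + 2).choose 2) (conds w)).factorial *
            2 ^ (min ((d + 2).choose 2) (conds w) * d)) ∧
        ∀ (L : Type) [Field L] (Y : Fin n → Fin 2 → L), value Φ Y ≠ 0 →
          hZero Y d w = max 0 (chi d w)) ∧
      -- the explicit points
      hZero (realPoints n) d w = max 0 (chi d w)) := by
  obtain ⟨K, _, _, P, hP⟩ := Pool.Agent.TH442.NF.exists_generic n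
  refine ⟨fun w μ hμ => ?_, fun d w hw => ?_⟩
  · obtain ⟨Φ, h1, h2, h3, h4⟩ := Pool.Agent.Y210.EF.window (w := w) (radius w μ)
      (fun d hd => large_exp ⟨Finset.univ, μ, fun i _ => hμ i,
        fun i hi => absurd (Finset.mem_univ i) hi, (window_iff w μ d).2 hd⟩ hP)
    exact ⟨Φ, controls_of h1 h2 h3, fun L _ Y hY d hd =>
      hZero_of (h4 L Y (by rw [← Pool.Agent.Y210.EF.val_eq]; exact hY) d
        ((window_iff w μ d).1 hd))⟩
  · have hED : Pool.Agent.Y210.EF.ED K w P d := by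
      rcases hw with h | ⟨hn4, d', w', hcar, hs, hG⟩
      · exact large_exp h hP
      · exact orbit_large hn4 hP hcar hs hG
    obtain ⟨Φ, h1, h2, h3, h4⟩ := Pool.Agent.Y210.EF.one_ed hED
    rw [← pow_mul, mul_comm d] at h3
    have key : ∀ (L : Type) [Field L] (Y : Fin n → Fin 2 → L), value Φ Y ≠ 0 →
        hZero Y d w = max 0 (chi d w) := fun L _ Y hY =>
      hZero_of (h4 L Y (by rw [← Pool.Agent.Y210.EF.val_eq]; exact hY))
    exact ⟨⟨Φ, controls_of h1 h2 h3, key⟩, key ℝ (realPoints n)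
      (Pool.Agent.Y210.EF.val_real hn h1)⟩

end Pool.Agent.Results.MP_6b2d39_ag.ExplicitWindows
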