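import Pool.Agent.Y205.FW.Inf

/-!
# General fat points: the number of different multiplicities

Let `w i ≥ 1` be multiplicities at `n ≥ 1` general points of the complex projective plane, `μ` an
upper bound for them and `r` an upper bound for the number of different values. If
`∑ w i ^ 2 ≥ 40000 * r * μ ^ 2`, then the linear system of forms of degree `d` with multiplicities
`w i` has the expected dimension for EVERY `d`.

There is no condition on how often the single values occur, on their ratios or on the number of the
points. If `m ≤ w i ≤ ρ * m` for all `i`, then `n ≥ 40000 * ρ ^ 2 * r` points suffice.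
-/

set_option autoImplicit false

namespace Pool.Agent.Results.MP_6b2d39_ag.NumberOfMultiplicities

open Pool.Agent

theorem result (n r μ : ℕ) (hn : 1 ≤ n) (w : Fin n → ℕ) (hw : ∀ i, 1 ≤ w i)
    (hμ : ∀ i, w i ≤ μ) (hwr : (Finset.univ.image w).card ≤ r)
    (h : 40000 * r * μ ^ 2 ≤ ∑ i, w i ^ 2) :
    ∃ F : MvPolynomial (Fin n × Fin 2) ℂ, F ≠ 0 ∧
      ∀ P : Fin n → Fin 2 → ℂ,
        MvPolynomial.eval (fun ij : Fin n × Fin 2 => P ij.1 ij.2) F ≠ 0 →
        ∀ d : ℕ,
          Module.finrank ℂ
            ↥(MvPolynomial.homogeneousSubmodule (Fin 3) ℂ d ⊓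
              Submodule.restrictScalars ℂ
                (⨅ i : Fin n,
                  (Ideal.span
                    ({MvPolynomial.X 0 - MvPolynomial.C (P i 0) * MvPolynomial.X 2,
                      MvPolynomial.X 1 - MvPolynomial.C (P i 1) * MvPolynomial.X 2} :
                      Set (MvPolynomial (Fin 3) ℂ))) ^ (w i)))
          = Nat.choose (d + 2) 2 - ∑ i, Nat.choose (w i + 1) 2 := by
  obtain ⟨F, hF, hF'⟩ := Y205.FW.inf_all hn hw hμ hwr h
  refine ⟨F.map (algebraMap ℚ ℂ), H932R3.map_ne_zero_of hF, fun P hP d => ?_⟩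
  rw [MvPolynomial.eval_map] at hP
  exact hF' P hP d

end Pool.Agent.Results.MP_6b2d39_ag.NumberOfMultiplicities
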